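import Pool.Agent.K1H53.BI.Plan5
import Pool.Agent.K1H39.BI.Gen

/-!
# The flux bound for the explicit function
-/

set_option autoImplicit false

open Finset

namespace Pool.Agent.K1H4.BI5

open Pool.Agent.K1H53.BI Pool.Agent.K1H39.BI

theorem dir_opp (e : Fin 3 × Bool) : dir (e.1, !e.2) = - dir e := by
  obtain ⟨j, b⟩ := e
  funext i
  cases b
  · by_cases h : i = j
    · subst h; simp [dir]
    · simp [dir, Pi.single_eq_of_ne h]
  · by_cases h : i = j
    · subst h; simp [dir]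
    · simp [dir, Pi.single_eq_of_ne h]

/-- Boundary pairs. -/
noncomputable def bd (R : ℕ) : Finset (V × (Fin 3 × Bool)) :=
  (BR R ×ˢ (univ : Finset (Fin 3 × Bool))).filter fun p => ¬ (p.1 + dir p.2 ∈ BR R)

theorem div_id (R : ℕ) (f : V → ℝ) :
    ∑ x ∈ BR R, (f x - av f x) = (1 / 6) * ∑ p ∈ bd R, (f p.1 - f (p.1 + dir p.2)) := by
  have h1 : ∀ x ∈ BR R, f x - av f x = (1 / 6) * ∑ e : Fin 3 × Bool, (f x - f (x + dir e)) := by
    intro x _
    rw [sum_sub_distrib]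
    unfold av
    simp
    ring
  rw [sum_congr rfl h1, ← mul_sum, ← sum_product']
  congr 1
  rw [← sum_filter_add_sum_filter_not (BR R ×ˢ (univ : Finset (Fin 3 × Bool)))
    (fun p => p.1 + dir p.2 ∈ BR R)]
  have h2 : ∑ p ∈ (BR R ×ˢ (univ : Finset (Fin 3 × Bool))).filter (fun p => p.1 + dir p.2 ∈ BR R),
      (f p.1 - f (p.1 + dir p.2)) = 0 := by
    refine Finset.sum_involution (fun p _ => (p.1 + dir p.2, (p.2.1, !p.2.2))) ?_ ?_ ?_ ?_
    · intro p _
      simp only [dir_opp, add_neg_cancel_right]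
      ring
    · intro p _ _ h
      have := congrArg (fun q => q.2.2) h
      simp at this
    · intro p hp
      rw [mem_filter, mem_product] at hp ⊢
      refine ⟨⟨hp.2, mem_univ _⟩, ?_⟩
      simp only [dir_opp, add_neg_cancel_right]
      exact hp.1.1
    · intro p _
      simp only [dir_opp, add_neg_cancel_right, Bool.not_not]
  rw [h2, zero_add]
  rfl

theorem av_nsq (x : V) : av (fun y => (nsq y : ℝ)) x = nsq x + 1 := by
  unfold av
  have h := sum_nsq_dir x
  have h' : (∑ e : Fin 3 × Bool, (nsq (x + dir e) : ℝ)) = 6 * nsq x + 6 := by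
    exact_mod_cast h
  rw [h']
  ring

theorem card_id (R : ℕ) :
    ((BR R).card : ℝ) = (1 / 6) * ∑ p ∈ bd R, ((nsq (p.1 + dir p.2) : ℝ) - nsq p.1) := by
  have h := div_id R (fun y => -(nsq y : ℝ))
  have h1 : ∀ x ∈ BR R, (-(nsq x : ℝ)) - av (fun y => -(nsq y : ℝ)) x = 1 := by
    intro x _
    have h2 : av (fun y => -(nsq y : ℝ)) x = - av (fun y => (nsq y : ℝ)) x := by
      unfold av
      rw [sum_neg_distrib]
      ring
    rw [h2, av_nsq]
    ring
  rw [sum_congr rfl h1] at h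
  simp only [sum_const, nsmul_eq_mul, mul_one] at h
  rw [h]
  congr 1
  refine sum_congr rfl fun p _ => ?_
  ring

theorem qf_diff {a b r : ℝ} (hr : 0 < r) (ha : r ^ 2 ≤ a) (hab : a ≤ b) :
    1 / Real.sqrt a - 1 / Real.sqrt b ≤ (b - a) / (2 * r ^ 3) := by
  have ha0 : 0 < a := lt_of_lt_of_le (by positivity) ha
  have hb0 : 0 < b := lt_of_lt_of_le ha0 hab
  set s := Real.sqrt a with hs
  set t := Real.sqrt b with ht
  have hs0 : 0 < s := Real.sqrt_pos.2 ha0
  have ht0 : 0 < t := Real.sqrt_pos.2 hb0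
  have hsa : s ^ 2 = a := Real.sq_sqrt ha0.le
  have htb : t ^ 2 = b := Real.sq_sqrt hb0.le
  have hrs : r ≤ s := Real.le_sqrt_of_sq_le ha
  have hst : s ≤ t := Real.sqrt_le_sqrt hab
  have hrt : r ≤ t := hrs.trans hst
  have h1 : 1 / s - 1 / t = (b - a) / (s * t * (s + t)) := by
    rw [← hsa, ← htb]
    field_simp
    ring
  rw [h1]
  refine div_le_div_of_nonneg_left (by linarith) (by positivity) ?_
  have h2 : r * r ≤ s * t := mul_le_mul hrs hrt hr.le hs0.le
  have h3 : r + r ≤ s + t := add_le_add hrs hrt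
  calc 2 * r ^ 3 = (r * r) * (r + r) := by ring
    _ ≤ s * t * (s + t) := mul_le_mul h2 h3 (by positivity) (by positivity)

theorem t_FLUX : S_FLUX := by
  intro R hR
  have hR1 : (0 : ℝ) < (R : ℝ) - 1 := by
    have : (2 : ℝ) ≤ R := by exact_mod_cast hR
    linarith
  have h0 : ∑ x ∈ BR R, lam x = (1 / 6) * ∑ p ∈ bd R, (qf p.1 - qf (p.1 + dir p.2)) :=
    div_id R qf
  rw [h0, card_id, mul_div_assoc, sum_div]
  refine mul_le_mul_of_nonneg_left (sum_le_sum fun p hp => ?_) (by norm_num)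
  unfold bd at hp
  rw [mem_filter, mem_product, mem_BR, mem_BR] at hp
  obtain ⟨⟨hp1, _⟩, hp2⟩ := hp
  have hlt : nsq p.1 < nsq (p.1 + dir p.2) := by omega
  have hbig : (R - 1) ^ 2 ≤ nsq p.1 := by
    by_contra hcon
    have h3 := nsq_dir_le (R := R - 1) (le_of_lt (not_le.1 hcon)) p.2
    rw [Nat.sub_add_cancel (by omega)] at h3
    exact hp2 h3
  have hbig' : ((R : ℝ) - 1) ^ 2 ≤ (nsq p.1 : ℝ) + 20 := by
    have h4 : (((R - 1 : ℕ) : ℝ)) ^ 2 ≤ (nsq p.1 : ℝ) := by exact_mod_cast hbig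
    rw [Nat.cast_sub (by omega), Nat.cast_one] at h4
    linarith
  have hle : (nsq p.1 : ℝ) + 20 ≤ (nsq (p.1 + dir p.2) : ℝ) + 20 := by
    have : (nsq p.1 : ℝ) ≤ (nsq (p.1 + dir p.2) : ℝ) := by exact_mod_cast hlt.le
    linarith
  have h5 := qf_diff hR1 hbig' hle
  unfold qf
  refine h5.trans (le_of_eq ?_)
  ring

end Pool.Agent.K1H4.BI5
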